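import Mathlib
import Pool.Agent.Helper228.MM.All
import Pool.Agent.Helper228.OP.Concrete
import Pool.Agent.Helper228.GM.All
import Pool.Agent.Helper228.NC.All

/-!
# MP_58f2bb_an: the free heat semigroup of a convergent matrix model need not be compact,
in every number `m + 1 ≥ 1` of matrices

Potential `P = A_0^4/4 - A_0^2 + A_1^2 + … + A_m^2`.

* `herm n x` : linear (isometric) parametrisation of the Hermitian `n × n` matrices by `ℝ^{n×n}`;
* `modelM m n` : the probability law proportional to `exp(- n Tr P(A_0,…,A_m))`;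
* words `w : Word m` are the monomials, `tw m n w` is the normalised trace of `w(A)`, `τ` the limit;
* `IsL2 τ emb` : the Hilbert space is `L²(M,τ)` (GNS space of `τ`), `emb w = w(a)`;
* `IsL2Tensor τ ten` : the Hilbert space is `L²(M,τ) ⊗ L²(M,τ)`;
* `IsDiffQuot emb ten i (d i)` : `d i` is the free difference quotient `∂_i`;
* `IsGrad emb ten grad` : `grad = (∂_0, …, ∂_m)`;
* `Lap T u w` : `T* T̄ u = w`;  `LapSum d u w` : `∑ ∂_i* ∂̄_i u = w`;
* `Resolvent L R` : `R = (1+Δ)⁻¹` for the operator `Δ` with graph `L`;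
* `heat R s` : `e^{-sΔ}`, by the continuous functional calculus of `R = (1+Δ)⁻¹`.
-/

open MeasureTheory Filter Topology

namespace Pool.Agent.Results.MP_58f2bb_an.AllDimensions

open Pool.Agent.Helper228.MM Pool.Agent.Helper228.GM Pool.Agent.Helper228.NC

/-- `herm n` is a linear isometry of `ℝ^{n×n}` onto the Hermitian `n × n` matrices. -/
def HermCoordinates : Prop :=
  ∀ n : ℕ, (∀ x y, herm n (x + y) = herm n x + herm n y) ∧
    (∀ (c : ℝ) x, herm n (c • x) = (c : ℂ) • herm n x) ∧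
    Function.Injective (herm n) ∧
    (∀ B : Matrix (Fin n) (Fin n) ℂ, B.IsHermitian ↔ ∃ x, herm n x = B) ∧
    (∀ x : Fin n → Fin n → ℝ, Matrix.trace (herm n x ^ 2) = (((∑ j, ∑ k, x j k ^ 2 : ℝ)) : ℂ))

/-- The model: `modelM m n` is the probability law with density proportional to
`exp(- n Tr P(A))` with respect to Lebesgue measure. -/
def ModelWellDefined (m : ℕ) : Prop :=
  (∀ n, modelM m n = (volume : Measure (Conf m n)).tilted (energyM m n)) ∧
  (∀ n, 1 ≤ n → Integrable (fun x => Real.exp (energyM m n x)) ∧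
    0 < (∫ x, Real.exp (energyM m n x)) ∧ IsProbabilityMeasure (modelM m n))

/-- The normalised traces of all monomials converge to `τ`, in expectation and in `L²`. -/
def ModelConverges (m : ℕ) (τ : Word m → ℂ) : Prop :=
  ∀ w : Word m,
    Tendsto (fun n : ℕ => ∫ x, tw m n w x ∂(modelM m n)) atTop (𝓝 (τ w)) ∧
    Tendsto (fun n : ℕ => ∫ x, ‖tw m n w x - τ w‖ ^ 2 ∂(modelM m n)) atTop (𝓝 0)

/-- The function of `t = 1/(1+λ)` which equals `e^{-sλ}` (and its limit `0` at `t = 0`). -/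
noncomputable def heatFun (s t : ℝ) : ℝ := if 0 < t then Real.exp (-s * (1 / t - 1)) else 0

/-- `e^{-sΔ}` for `Δ = R⁻¹ - 1`, by the continuous functional calculus of `R = (1+Δ)⁻¹`. -/
noncomputable def heat {E : Type} [NormedAddCommGroup E] [InnerProductSpace ℂ E]
    [CompleteSpace E] (R : E →L[ℂ] E) (s : ℝ) : E →L[ℂ] E := cfc (heatFun s) R

/-- For the operator `Δ` with graph `L`: `(1+Δ)⁻¹` exists, `e^{-sΔ}` is the strongly continuous
semigroup generated by `-Δ`, and `e^{-sΔ}` is not compact for any `s > 0`. -/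
def HeatNeverCompact {E : Type} [NormedAddCommGroup E] [InnerProductSpace ℂ E]
    [CompleteSpace E] (L : E → E → Prop) : Prop :=
  ∃ R : E →L[ℂ] E, Resolvent L R ∧ HeatSemigroup L (heat R) ∧
    ∀ s : ℝ, 0 < s → ¬ IsCompactOperator (heat R s)

theorem semigroup {E F : Type} [NormedAddCommGroup E] [InnerProductSpace ℂ E]
    [CompleteSpace E] [NormedAddCommGroup F] [InnerProductSpace ℂ F] (T : E →ₗ.[ℂ] F)
    (R : E →L[ℂ] E) (hR : Pool.Agent.Helper228.FH.Resolvent T R) (hnorm : ‖R‖ ≤ 1) :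
    HeatSemigroup (Lap T) (heat R) := by
  obtain ⟨h1, h2, h3⟩ := Pool.Agent.Helper228.FH.semigroup T R hR hnorm
  exact ⟨h1, h2, h3⟩

/-- the vectors used in the proof -/
theorem vectors {m : ℕ} (τ : Word m → ℂ) (h : NCState m τ) {E F : Type}
    [NormedAddCommGroup E] [InnerProductSpace ℂ E] [CompleteSpace E] [NormedAddCommGroup F]
    [InnerProductSpace ℂ F] [CompleteSpace F]
    (emb : Word m → E) (ten : Word m → Word m → F) (h1 : IsL2 τ emb) (h2 : IsL2Tensor τ ten)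
    (d : Fin (m + 1) → (E →ₗ.[ℂ] F)) (hd : ∀ i, IsDiffQuot emb ten i (d i) ∧ (d i).IsClosable)
    (grad : E →ₗ.[ℂ] PiLp 2 (fun _ : Fin (m + 1) => F)) (hg : IsGrad emb ten grad)
    (hgc : grad.IsClosable) :
    ∃ (f : ℕ → E) (k : ℕ → F) (c C : ℝ), 0 < c ∧ 0 < C ∧
      (∀ a b, a ≠ b → inner ℂ (f a) (f b) = 0) ∧
      (∀ n, c ≤ ‖f n‖ ^ 2 ∧ ‖f n‖ ^ 2 ≤ C ∧ ‖k n‖ ^ 2 ≤ C) ∧
      (∀ n, (f n, k n) ∈ (d 0).closure.graph) ∧
      (∀ n, ∀ i : Fin (m + 1), i ≠ 0 → (f n, (0 : F)) ∈ (d i).closure.graph) ∧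
      (∀ n, (f n, WithLp.toLp 2 fun i => if i = 0 then k n else 0) ∈ grad.closure.graph) := by
  obtain ⟨Φ, hΦ⟩ := n_transfer τ h emb ten h1 h2 Pool.Agent.Helper228.OP.del_closable d hd grad
    hg hgc
  obtain ⟨f, hC1, hdisj, c, C, hc, hC, hbd⟩ := Pool.Agent.Helper228.OP.bump
  choose u hu hue huk using fun n => Pool.Agent.Helper228.OP.c1_closure (f n) (hC1 n)
  have hn1 : ∀ n, ‖u n‖ ^ 2 = ∫ x, f n x ^ 2 ∂rho := fun n =>
    Pool.Agent.Helper228.OP.l2_norm_sq (u n) (f n) (hue n)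
  have hn2 : ∀ n, ‖Pool.Agent.Helper228.OP.del.closure ⟨u n, hu n⟩‖ ^ 2
      = ∫ z, ((f n z.1 - f n z.2) / (z.1 - z.2)) ^ 2 ∂(rho.prod rho) := fun n =>
    Pool.Agent.Helper228.OP.l2_norm_sq _
      (fun z : ℝ × ℝ => (f n z.1 - f n z.2) / (z.1 - z.2)) (huk n)
  choose k hk1 hk2 hk3 hk4 using fun n => hΦ (u n)
    (Pool.Agent.Helper228.OP.del.closure ⟨u n, hu n⟩)
    (Pool.Agent.Helper228.OP.del.closure.mem_graph ⟨u n, hu n⟩)
  refine ⟨fun n => Φ (u n), k, c, C, hc, hC, ?_, ?_, hk2, hk3, hk4⟩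
  · intro a b hab
    rw [Φ.inner_map_map]
    exact Pool.Agent.Helper228.OP.l2_inner_zero (u a) (u b) (f a) (f b) (hue a) (hue b)
      (fun x => hdisj a b x hab)
  · intro n
    rw [Φ.norm_map, hk1, hn1, hn2]
    exact hbd n

theorem never_compact_T {m : ℕ} {E F : Type}
    [NormedAddCommGroup E] [InnerProductSpace ℂ E] [CompleteSpace E] [NormedAddCommGroup F]
    [InnerProductSpace ℂ F] [CompleteSpace F]
    (f : ℕ → E) (k : ℕ → F) (c C : ℝ) (hc : 0 < c) (hC : 0 < C)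
    (ho : ∀ a b, a ≠ b → inner ℂ (f a) (f b) = 0)
    (hb : ∀ n, c ≤ ‖f n‖ ^ 2 ∧ ‖f n‖ ^ 2 ≤ C ∧ ‖k n‖ ^ 2 ≤ C)
    (T : E →ₗ.[ℂ] PiLp 2 (fun _ : Fin (m + 1) => F)) (hd : Dense (T.domain : Set E))
    (hT : T.IsClosable)
    (hm : ∀ n, (f n, WithLp.toLp 2 fun i => if i = 0 then k n else 0) ∈ T.closure.graph) :
    HeatNeverCompact (Lap T) := by
  obtain ⟨R, hR, hnorm, hineq⟩ := Pool.Agent.Helper228.OP.abs_resolvent T hd hT
  have hR2 : Pool.Agent.Helper228.FH.Resolvent T R :=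
    (Pool.Agent.Helper228.FH.resolvent_iff T R).2 hR
  refine ⟨R, ⟨hR2.pos, hR2.right, hR2.left⟩, semigroup T R hR2 hnorm, fun s hs => ?_⟩
  refine Pool.Agent.Helper228.OP.abs_noncompact R hR.pos hnorm s hs f ho (c ^ 2 / (2 * C)) C
    (by positivity) (fun n => (hb n).2.1) ?_
  intro n
  have hmn := hm n
  rw [LinearPMap.mem_graph_iff] at hmn
  obtain ⟨⟨y, hy⟩, hy1, hy2⟩ := hmn
  simp only at hy1
  subst hy1
  have h1 := hineq (f n) hy
  rw [hy2] at h1
  have h2 : ‖(WithLp.toLp 2 fun i : Fin (m + 1) => if i = 0 then k n else 0 :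
      PiLp 2 (fun _ : Fin (m + 1) => F))‖ ^ 2 = ‖k n‖ ^ 2 := by
    rw [PiLp.norm_sq_eq_of_L2]
    rw [Fin.sum_univ_succ]
    simp [Fin.succ_ne_zero]
  simp only at h1
  rw [h2] at h1
  have h5 : 0 ≤ (inner ℂ (R (f n)) (f n)).re := by
    have := hR.pos.inner_nonneg_left (f n)
    have h6 := (RCLike.nonneg_iff.1 this).1
    simpa using h6
  have h4 : c ^ 2 ≤ ‖f n‖ ^ 4 := by
    have : ‖f n‖ ^ 4 = (‖f n‖ ^ 2) ^ 2 := by ring
    rw [this]
    have := (hb n).1
    gcongr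
  rw [div_le_iff₀ (by positivity)]
  calc c ^ 2 ≤ ‖f n‖ ^ 4 := h4
    _ ≤ _ := h1
    _ ≤ (2 * C) * (inner ℂ (R (f n)) (f n)).re := by
        gcongr
        linarith [(hb n).2.1, (hb n).2.2]
    _ = _ := by ring

theorem never_compact_sum {m : ℕ} {E F : Type}
    [NormedAddCommGroup E] [InnerProductSpace ℂ E] [CompleteSpace E] [NormedAddCommGroup F]
    [InnerProductSpace ℂ F] [CompleteSpace F]
    (f : ℕ → E) (k : ℕ → F) (c C : ℝ) (hc : 0 < c) (hC : 0 < C)
    (ho : ∀ a b, a ≠ b → inner ℂ (f a) (f b) = 0)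
    (hb : ∀ n, c ≤ ‖f n‖ ^ 2 ∧ ‖f n‖ ^ 2 ≤ C ∧ ‖k n‖ ^ 2 ≤ C)
    (d : Fin (m + 1) → (E →ₗ.[ℂ] F)) (hd : ∀ i, Dense ((d i).domain : Set E) ∧ (d i).IsClosable)
    (h0 : ∀ n, (f n, k n) ∈ (d 0).closure.graph)
    (hi : ∀ n, ∀ i : Fin (m + 1), i ≠ 0 → (f n, (0 : F)) ∈ (d i).closure.graph)
    (R : E →L[ℂ] E) (hR : Resolvent (LapSum d) R) (s : ℝ) (hs : 0 < s) :
    ¬ IsCompactOperator (heat R s) := by
  have hl := fun n => n_sum_lower d hd R hR.pos hR.right (f n) (k n) (h0 n) (hi n)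
  have hnorm : ‖R‖ ≤ 1 := (hl 0).1
  have hcp : 0 < min (c / 2) ((c / (2 * Real.sqrt C)) ^ 2) := by
    have : 0 < Real.sqrt C := Real.sqrt_pos.2 hC
    refine lt_min (by positivity) (by positivity)
  refine Pool.Agent.Helper228.OP.abs_noncompact R hR.pos hnorm s hs f ho _ C
    hcp (fun n => (hb n).2.1) ?_
  intro n
  set r := (inner ℂ (R (f n)) (f n)).re with hr
  have hr0 : 0 ≤ r := by
    have := hR.pos.inner_nonneg_left (f n)
    have h6 := (RCLike.nonneg_iff.1 this).1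
    simpa using h6
  by_contra hlt
  rw [not_le, lt_min_iff] at hlt
  obtain ⟨hlt1, hlt2⟩ := hlt
  have hsC : 0 < Real.sqrt C := Real.sqrt_pos.2 hC
  have h1 : Real.sqrt r < c / (2 * Real.sqrt C) := by
    rw [Real.sqrt_lt' (by positivity)]
    exact hlt2
  have h2 : ‖k n‖ ≤ Real.sqrt C := Real.le_sqrt_of_sq_le (hb n).2.2
  have h3 : ‖k n‖ * Real.sqrt r ≤ Real.sqrt C * (c / (2 * Real.sqrt C)) := by
    gcongr
  have h4 : Real.sqrt C * (c / (2 * Real.sqrt C)) = c / 2 := by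
    field_simp
  have h5 := (hl n).2
  have h6 := (hb n).1
  linarith

/-- **Disproof in every dimension.** For every number `m + 1 ≥ 1` of matrices, the model with
potential `P = A_0^4/4 - A_0^2 + A_1^2 + … + A_m^2` converges to a state `τ`, there is no
polynomial relation, the conjugate variables exist (and are `D_i P`), but `e^{-sΔ}` is not
compact for any `s > 0`, for `Δ = grad* grad̄` (more generally `Δ = T* T` for every closed
extension `T` of the gradient on the polynomials, in particular `T = (∂̄_0, …, ∂̄_m)`), and for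
the operator sum `Δ = ∑ ∂_i* ∂̄_i`. -/
theorem result (m : ℕ) :
    HermCoordinates ∧ ModelWellDefined m ∧ ∃ τ : Word m → ℂ, ModelConverges m τ ∧
    ∃ (H K : Type) (_ : NormedAddCommGroup H) (_ : InnerProductSpace ℂ H) (_ : CompleteSpace H)
      (_ : NormedAddCommGroup K) (_ : InnerProductSpace ℂ K) (_ : CompleteSpace K)
      (emb : Word m → H) (ten : Word m → Word m → K) (d : Fin (m + 1) → (H →ₗ.[ℂ] K))
      (grad : H →ₗ.[ℂ] PiLp 2 (fun _ : Fin (m + 1) => K)),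
      IsL2 τ emb ∧ IsL2Tensor τ ten ∧ LinearIndependent ℂ emb ∧
      (∀ i, IsDiffQuot emb ten i (d i) ∧ (d i).IsClosable ∧
        (ten [] [], conjVar emb i) ∈ (d i).adjoint.graph) ∧
      IsGrad emb ten grad ∧ grad.IsClosable ∧
      HeatNeverCompact (Lap grad) ∧
      (∀ T : H →ₗ.[ℂ] PiLp 2 (fun _ : Fin (m + 1) => K), T.IsClosed → grad ≤ T →
        HeatNeverCompact (Lap T)) ∧
      (∀ R : H →L[ℂ] H, Resolvent (LapSum d) R →
        ∀ s : ℝ, 0 < s → ¬ IsCompactOperator (heat R s)) := by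
  obtain ⟨τ, hτ⟩ := g_conv m
  have hst := g_state m τ hτ
  refine ⟨?_, ⟨fun n => rfl, ?_⟩, τ, ?_, ?_⟩
  · intro n
    obtain ⟨h1, h2, h3, h4, h5, h6⟩ := herm_lin n
    refine ⟨h1, h2, fun x y h => h5 x y h, fun B => ⟨h4 B, ?_⟩, h6⟩
    rintro ⟨x, rfl⟩; exact h3 x
  · intro n hn
    obtain ⟨h1, h2, h3, -⟩ := g_model m n hn
    exact ⟨h2, h3, h1⟩
  · intro w
    refine ⟨?_, g_L2 m τ hτ w⟩
    have := hτ [w]
    simpa [tl] using this
  · obtain ⟨H, iH1, iH2, iH3, emb, hemb⟩ := n_gns m τ hst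
    obtain ⟨K, iK1, iK2, iK3, ten, hten⟩ := n_tensor τ emb hemb
    obtain ⟨⟨d, hd⟩, grad, hg, hgc⟩ := n_ops τ hst emb ten hemb hten
    obtain ⟨f, k, c, C, hc, hC, ho, hb, h0, hi, hm⟩ := vectors τ hst emb ten hemb hten d
      (fun i => ⟨(hd i).1, (hd i).2.1⟩) grad hg hgc
    have hdomg : Dense (grad.domain : Set H) := by rw [hg.domain]; exact hemb.dense_emb
    refine ⟨H, K, iH1, iH2, iH3, iK1, iK2, iK3, emb, ten, d, grad, hemb, hten,
      n_indep τ hst emb ten hemb hten, hd, hg, hgc, ?_, ?_, ?_⟩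
    · exact never_compact_T f k c C hc hC ho hb grad hdomg hgc hm
    · intro T hT hle
      have hTc : T.closure = T := by
        apply LinearPMap.eq_of_eq_graph
        rw [← hT.isClosable.graph_closure_eq_closure_graph]
        exact IsClosed.submodule_topologicalClosure_eq hT
      have hle2 : grad.closure ≤ T := by
        have := hT.isClosable.closure_mono hle
        rwa [hTc] at this
      refine never_compact_T f k c C hc hC ho hb T
        (hdomg.mono (fun y hy => hle.1 hy)) hT.isClosable ?_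
      intro n
      rw [hTc]
      exact LinearPMap.le_graph_of_le hle2 (hm n)
    · intro R hR s hs
      exact never_compact_sum f k c C hc hC ho hb d
        (fun i => ⟨by rw [(hd i).1.domain]; exact hemb.dense_emb, (hd i).2.1⟩) h0 hi R hR s hs

end Pool.Agent.Results.MP_58f2bb_an.AllDimensions
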