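import Mathlib
import Pool.Agent.Helper228.MM.All
import Pool.Agent.Helper228.OP.Concrete

/-!
# MP_58f2bb_an: the free heat semigroup of a convergent matrix model need not be compact

One matrix (`m = 1`), potential `P(A) = A^4/4 - A^2`.

* `herm n x` : linear (isometric) parametrisation of the Hermitian `n × n` matrices by `ℝ^{n×n}`;
* `model n` : the probability law proportional to `exp(- n Tr P(A))` (`Measure.tilted` of Lebesgue
  measure by `energy n x = - n Tr P(herm n x)`);
* `rho` : the probability measure `x² √(4-x²) / (2π) dx` on `[-2,2]`; `state p = ∫ p dρ` is the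
  limit state `τ`;
* `IsL2 τ emb` : the Hilbert space is `L²(M,τ)` (GNS space of `τ`), `emb p = p(a)`;
* `IsL2Tensor τ ten` : the Hilbert space is `L²(M,τ) ⊗ L²(M,τ)`;
* `IsDiffQuot emb ten del` : `del` is the free difference quotient `∂` (unbounded operator with
  domain the polynomials);
* `Lap del u w` : `u` is in the domain of `Δ = ∂* ∂̄` and `Δ u = w`;
* `Resolvent del R` : `R = (1+Δ)⁻¹`;
* `heat R s` : `e^{-sΔ}`, by the continuous functional calculus of `R`.
-/

open MeasureTheory Filter Topology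

namespace Pool.Agent.Results.MP_58f2bb_an.CriticalQuartic

open Pool.Agent.Helper228.MM Pool.Agent.Helper228.FH

/-- The potential `P = X^4/4 - X^2`. -/
noncomputable def potential : Polynomial ℂ :=
  Polynomial.C (1 / 4) * Polynomial.X ^ 4 - Polynomial.X ^ 2

/-- Normalised trace `(1/n) Tr p(A)`, `A = herm n x`. -/
noncomputable def ntr (n : ℕ) (p : Polynomial ℂ) (x : Fin n → Fin n → ℝ) : ℂ :=
  Matrix.trace (Polynomial.aeval (herm n x) p) / (n : ℂ)

/-- The limit state `τ(p) = ∫ p dρ`. -/
noncomputable def state (p : Polynomial ℂ) : ℂ := ∫ y : ℝ, p.eval (y : ℂ) ∂rho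

/-- `herm n` is a linear isometry of `ℝ^{n×n}` onto the Hermitian `n × n` matrices. -/
def HermCoordinates : Prop :=
  ∀ n : ℕ, (∀ x y, herm n (x + y) = herm n x + herm n y) ∧
    (∀ (c : ℝ) x, herm n (c • x) = (c : ℂ) • herm n x) ∧
    Function.Injective (herm n) ∧
    (∀ B : Matrix (Fin n) (Fin n) ℂ, B.IsHermitian ↔ ∃ x, herm n x = B) ∧
    (∀ x : Fin n → Fin n → ℝ, Matrix.trace (herm n x ^ 2) = (((∑ j, ∑ k, x j k ^ 2 : ℝ)) : ℂ))

/-- The model: `model n` is the probability law with density proportional to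
`exp(- n Tr P(A))` with respect to Lebesgue measure. -/
def ModelWellDefined : Prop :=
  (∀ n x, energy n x = -(n : ℝ) * (Matrix.trace (Polynomial.aeval (herm n x) potential)).re) ∧
  (∀ n, model n = (volume : Measure (Fin n → Fin n → ℝ)).tilted (energy n)) ∧
  (∀ n, 1 ≤ n → Integrable (fun x => Real.exp (energy n x)) ∧
    0 < (∫ x, Real.exp (energy n x)) ∧ IsProbabilityMeasure (model n))

/-- The normalised traces of all polynomials converge to `τ`: in expectation, in `L¹`, and
with probability `1 - O(1/n²)` (hence almost surely). -/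
def ModelConverges : Prop :=
  ∀ p : Polynomial ℂ,
    Tendsto (fun n : ℕ => ∫ x, ntr n p x ∂(model n)) atTop (𝓝 (state p)) ∧
    Tendsto (fun n : ℕ => ∫ x, ‖ntr n p x - state p‖ ∂(model n)) atTop (𝓝 0) ∧
    ∀ ε : ℝ, 0 < ε → ∃ C : ℝ, ∀ n : ℕ, 1 ≤ n →
      (model n).real {x | ε < ‖ntr n p x - state p‖} ≤ C / (n : ℝ) ^ 2

theorem loop_rho (k : ℕ) : (∑ l ∈ Finset.range k, (∫ x, x ^ l ∂rho) * ∫ x, x ^ (k - 1 - l) ∂rho)
      - (∫ x, x ^ (k + 3) ∂rho) + 2 * (∫ x, x ^ (k + 1) ∂rho) = 0 := by
  have := mom_loop.2.2.2 k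
  simpa [Sk, mom] using this

theorem deriv_potential : Polynomial.derivative potential
    = Polynomial.X ^ 3 - 2 * Polynomial.X := by
  unfold potential
  rw [Polynomial.derivative_sub, Polynomial.derivative_C_mul, Polynomial.derivative_X_pow,
    Polynomial.derivative_X_pow]
  rw [← mul_assoc, ← Polynomial.C_mul]
  norm_num
  rfl

/-- **Disproof.** The one-matrix model with potential `P = A^4/4 - A^2` converges to the state
`τ = state` (integration against `ρ`).  With `H = L²(M,τ)`, `K = L²(M,τ) ⊗ L²(M,τ)` and `∂ = del`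
the free difference quotient: there is no polynomial relation, the conjugate variable
`J = ∂*(1 ⊗ 1)` exists (and is `P'(a)`), `∂` is closable, `R = (1+Δ)⁻¹` exists and `heat R s`
is the strongly continuous semigroup `e^{-sΔ}`; but `e^{-sΔ}` is not compact, for every `s > 0`. -/
theorem result :
    HermCoordinates ∧ ModelWellDefined ∧ ModelConverges ∧
    ∃ (H K : Type) (_ : NormedAddCommGroup H) (_ : InnerProductSpace ℂ H) (_ : CompleteSpace H)
      (_ : NormedAddCommGroup K) (_ : InnerProductSpace ℂ K) (_ : CompleteSpace K)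
      (emb : Polynomial ℂ →ₗ[ℂ] H) (ten : Polynomial ℂ →ₗ[ℂ] Polynomial ℂ →ₗ[ℂ] K)
      (del : H →ₗ.[ℂ] K) (R : H →L[ℂ] H),
      IsL2 state emb ∧ IsL2Tensor state ten ∧ Function.Injective emb ∧
      IsDiffQuot emb ten del ∧ del.IsClosable ∧
      (ten 1 1, emb (Polynomial.derivative potential)) ∈ del.adjoint.graph ∧
      Resolvent del R ∧ HeatSemigroup del (heat R) ∧
      ∀ s : ℝ, 0 < s → ¬ IsCompactOperator (heat R s) := by
  refine ⟨?_, ⟨?_, fun n => rfl, ?_⟩, ?_, ?_⟩
  · intro n
    obtain ⟨h1, h2, h3, h4, h5, h6⟩ := herm_lin n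
    refine ⟨h1, h2, fun x y h => h5 x y h, fun B => ⟨h4 B, ?_⟩, h6⟩
    rintro ⟨x, rfl⟩; exact h3 x
  · intro n x
    unfold energy potential
    congr 3
    simp [Algebra.smul_def]
  · intro n hn
    obtain ⟨h1, h2, h3⟩ := model_prob n hn
    exact ⟨h2, h3, h1⟩
  · intro p
    exact ⟨exp_conv_poly2 p, exp_conv_poly p, fun ε hε => prob_conv_poly p ε hε⟩
  · obtain ⟨R, hR, hnorm, -⟩ := Pool.Agent.Helper228.OP.abs_resolvent
      Pool.Agent.Helper228.OP.del Pool.Agent.Helper228.OP.emb_dense
      Pool.Agent.Helper228.OP.del_closable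
    have hR2 : Resolvent Pool.Agent.Helper228.OP.del R := (resolvent_iff _ R).2 hR
    refine ⟨Pool.Agent.Helper228.OP.HH, Pool.Agent.Helper228.OP.KK, inferInstance, inferInstance,
      inferInstance, inferInstance, inferInstance, inferInstance, Pool.Agent.Helper228.OP.emb,
      tenC, Pool.Agent.Helper228.OP.del, R, isL2, isL2Tensor,
      Pool.Agent.Helper228.OP.emb_injective, isDiffQuot, Pool.Agent.Helper228.OP.del_closable,
      ?_, hR2, semigroup _ _ hR2 hnorm, ?_⟩
    · obtain ⟨h1, h2, h3⟩ := Pool.Agent.Helper228.OP.conj_adjoint loop_rho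
      rw [deriv_potential]
      have h4 : Pool.Agent.Helper228.OP.dq Polynomial.X = tenC 1 1 := by
        rw [h1]
        show _ = (Pool.Agent.Helper228.OP.memLp_cont2 (g := fun z : ℝ × ℝ =>
          (1 : Polynomial ℂ).eval (z.1 : ℂ) * (1 : Polynomial ℂ).eval (z.2 : ℂ))
          (by fun_prop)).toLp _
        congr 1
        ext z
        simp
      have h5 := Pool.Agent.Helper228.OP.del.adjoint.mem_graph ⟨_, h2⟩
      rw [h3] at h5
      simp only [h4] at h5
      exact h5
    · intro s hs
      exact Pool.Agent.Helper228.OP.noncompact R hR s hs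

end Pool.Agent.Results.MP_58f2bb_an.CriticalQuartic
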